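import Pool.Agent.Helper5.ST.GoalsA

/-! Packet ENT of MP_f1caa3_al. -/

namespace Pool.Agent.Helper11.ST

open Pool.Agent.Helper5.Gap Pool.Agent.Helper5.ST
open scoped InnerProductSpace commutatorElement

universe u

theorem log_succ_sub_log_le {n : ℕ} (hn : 1 ≤ n) :
    Real.log ((n : ℝ) + 1) - Real.log n ≤ 1 / n := by
  have h0 : (0 : ℝ) < n := by exact_mod_cast hn
  rw [← Real.log_div (by positivity) h0.ne']
  have := Real.log_le_sub_one_of_pos (show 0 < ((n : ℝ) + 1) / n by positivity)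
  refine this.trans (le_of_eq ?_)
  field_simp
  ring

theorem ent (hE : Pool.Agent.Helper5.ST.SEntStep.{u}) : Pool.Agent.Helper5.ST.SEnt.{u} := by
  intro G _ w N Λ hN hΛ
  by_contra hcon
  push Not at hcon
  have hN1 : (1 : ℝ) < N := by exact_mod_cast (by omega : 1 < N)
  have hlog : 0 < Real.log N := Real.log_pos hN1
  have hg1 : (1 : ℝ) ≤ growth w.X (N ^ 2) := by
    have : 0 < (w.B (N ^ 2)).card := Finset.card_pos.2 ⟨1, w.mem_B.2 (one_mem_ball _)⟩
    rw [w.card_B] at this
    exact_mod_cast this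
  have hΛ0 : 0 ≤ Λ := (Real.log_nonneg hg1).trans hΛ
  set c := Λ / Real.log N with hc
  have hc0 : 0 ≤ c := by positivity
  -- telescoping
  have htel : ∀ m, N ≤ m → ∑ n ∈ Finset.Ico N m, w.Hel n ≤ w.ent m - w.ent N := by
    intro m hm
    induction m, hm using Nat.le_induction with
    | base => simp
    | succ m hm ih =>
      rw [Finset.sum_Ico_succ_top hm]
      have := (hE G w m).1
      linarith
  have htel2 : ∀ m, N ≤ m → Real.log m - Real.log N ≤ ∑ n ∈ Finset.Ico N m, 1 / (n : ℝ) := by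
    intro m hm
    induction m, hm using Nat.le_induction with
    | base => simp
    | succ m hm ih =>
      rw [Finset.sum_Ico_succ_top hm]
      have := log_succ_sub_log_le (n := m) (by omega)
      push_cast
      linarith
  have hNN : N ≤ N ^ 2 := by nlinarith
  have hNlt : N < N ^ 2 := by nlinarith
  have h1 := htel (N ^ 2) hNN
  have h2 := htel2 (N ^ 2) hNN
  have h3 : ∑ n ∈ Finset.Ico N (N ^ 2), c * (1 / (n : ℝ)) < ∑ n ∈ Finset.Ico N (N ^ 2), w.Hel n := by
    apply Finset.sum_lt_sum_of_nonempty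
    · exact ⟨N, Finset.mem_Ico.2 ⟨le_rfl, hNlt⟩⟩
    · intro n hn
      rw [Finset.mem_Ico] at hn
      have hn0 : (0 : ℝ) < n := by exact_mod_cast (by omega : 0 < n)
      have := hcon n hn.1 hn.2
      rw [mul_one_div, div_lt_iff₀ hn0]
      linarith
  rw [← Finset.mul_sum] at h3
  have h4 : c * (Real.log ((N ^ 2 : ℕ) : ℝ) - Real.log N) = Λ := by
    push_cast
    rw [Real.log_pow]
    have : ((2 : ℕ) : ℝ) * Real.log N - Real.log N = Real.log N := by push_cast; ring
    rw [this, hc, div_mul_cancel₀ _ hlog.ne']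
  have h5 := mul_le_mul_of_nonneg_left h2 hc0
  rw [h4] at h5
  have h6 := (hE G w (N ^ 2)).2.2
  have h7 := (hE G w N).2.1
  linarith

end Pool.Agent.Helper11.ST
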