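import Pool.Agent.Helper5.ST.GoalsA

/-! Packet ENTSTEP of MP_f1caa3_al. -/

namespace Pool.Agent.Helper11.ST

open Pool.Agent.Helper5.Gap Pool.Agent.Helper5.ST
open scoped InnerProductSpace commutatorElement

universe u

variable {G : Type u} [Group G] (w : Walk G)

theorem sum_translate (n : ℕ) (i : w.I) (φ : ℝ → ℝ) (h0 : φ 0 = 0) :
    ∑ g ∈ w.B (n + 1), φ (w.mu n ((w.s i)⁻¹ * g)) = ∑ g ∈ w.B n, φ (w.mu n g) := by
  classical
  have h1 : ∑ g ∈ w.B n, φ (w.mu n g) =
      ∑ g ∈ (w.B n).image (fun g => w.s i * g), φ (w.mu n ((w.s i)⁻¹ * g)) := by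
    rw [Finset.sum_image (fun a _ b _ h => mul_left_cancel h)]
    simp
  rw [h1]
  symm
  refine Finset.sum_subset ?_ ?_
  · intro g hg
    obtain ⟨h, hh, rfl⟩ := Finset.mem_image.1 hg
    rw [w.mem_B] at hh ⊢
    rw [add_comm]
    exact mul_mem_ball (w.s_mem_ball i) hh
  · intro g _ hg
    rw [w.mu_eq_zero, h0]
    intro h
    apply hg
    refine Finset.mem_image.2 ⟨(w.s i)⁻¹ * g, w.mem_B.2 h, by simp⟩

theorem log_ineq {x y : ℝ} (hx : 0 ≤ x) (hy : 0 ≤ y) (h : y = 0 → x = 0) :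
    2 * x - 2 * (√x * √y) ≤ -Real.negMulLog x - x * Real.log y := by
  rcases hx.eq_or_lt with h0 | hx0
  · rw [← h0]; simp
  · have hy0 : 0 < y := by
      rcases hy.eq_or_lt with h1 | h1
      · exact absurd (h h1.symm) hx0.ne'
      · exact h1
    have hsx : 0 < √x := Real.sqrt_pos.2 hx0
    have hsy : 0 < √y := Real.sqrt_pos.2 hy0
    have h1 : Real.log (√y / √x) ≤ √y / √x - 1 := by
      have := Real.log_le_sub_one_of_pos (div_pos hsy hsx)
      exact this
    rw [Real.log_div hsy.ne' hsx.ne', Real.log_sqrt hy0.le, Real.log_sqrt hx0.le] at h1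
    have h2 : x * (√y / √x) = √x * √y := by
      have : x = √x * √x := (Real.mul_self_sqrt hx).symm
      rw [mul_div_assoc']
      rw [div_eq_iff hsx.ne']
      nth_rewrite 1 [this]
      ring
    have h3 := mul_le_mul_of_nonneg_left h1 hx
    have h4 : x * (√y / √x - 1) = √x * √y - x := by rw [mul_sub, h2, mul_one]
    rw [h4] at h3
    unfold Real.negMulLog
    nlinarith

theorem log_card_ineq {x c : ℝ} (hx : 0 ≤ x) (hc : 0 < c) :
    Real.negMulLog x ≤ 1 / c - x + x * Real.log c := by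
  rcases hx.eq_or_lt with h0 | hx0
  · rw [← h0]; simp; positivity
  · have h1 := Real.log_le_sub_one_of_pos (show 0 < 1 / (x * c) by positivity)
    rw [one_div, Real.log_inv, Real.log_mul hx0.ne' hc.ne'] at h1
    have h2 := mul_le_mul_of_nonneg_left h1 hx
    have h3 : x * ((x * c)⁻¹ - 1) = 1 / c - x := by
      field_simp
    rw [h3] at h2
    unfold Real.negMulLog
    nlinarith

theorem entStep : Pool.Agent.Helper5.ST.SEntStep.{u} := by
  intro G _ w n
  have hmu0 : ∀ m g, 0 ≤ w.mu m g := fun m g => w.mu_nonneg m g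
  refine ⟨?_, ?_, ?_⟩
  · -- the main inequality
    have hxb : ∀ g, w.mu (n + 1) g = 0 → ∀ i, w.mu n ((w.s i)⁻¹ * g) = 0 := by
      intro g hg i
      rw [w.mu_succ] at hg
      have h1 := (Finset.sum_eq_zero_iff_of_nonneg
        (fun j _ => mul_nonneg (w.p_nonneg j) (hmu0 n _))).1 hg i (Finset.mem_univ i)
      rcases mul_eq_zero.1 h1 with h2 | h2
      · exact absurd h2 (w.p_pos i).ne'
      · exact h2
    have hsumx : ∀ i, ∑ g ∈ w.B (n + 1), w.mu n ((w.s i)⁻¹ * g) = 1 := by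
      intro i
      rw [sum_translate w n i (fun x => x) rfl]
      exact w.sum_mu (Finset.Subset.refl _)
    have hsumxb : ∑ g ∈ w.B (n + 1), w.mu (n + 1) g = 1 := w.sum_mu (Finset.Subset.refl _)
    have hent : ∀ i, ∑ g ∈ w.B (n + 1), Real.negMulLog (w.mu n ((w.s i)⁻¹ * g)) = w.ent n := by
      intro i
      rw [sum_translate w n i Real.negMulLog Real.negMulLog_zero]
      rfl
    have hhel : ∀ i, w.hel n i = ∑ g ∈ w.B (n + 1), (2 * w.mu n ((w.s i)⁻¹ * g) -
        2 * (√(w.mu n ((w.s i)⁻¹ * g)) * √(w.mu (n + 1) g))) := by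
      intro i
      have e1 : w.hel n i = ∑ g ∈ w.B (n + 1), (w.mu n ((w.s i)⁻¹ * g) + w.mu (n + 1) g -
          2 * (√(w.mu n ((w.s i)⁻¹ * g)) * √(w.mu (n + 1) g))) := by
        unfold Walk.hel
        refine Finset.sum_congr rfl (fun g _ => ?_)
        rw [sub_sq, Real.sq_sqrt (hmu0 _ _), Real.sq_sqrt (hmu0 _ _)]
        ring
      rw [e1, Finset.sum_sub_distrib, Finset.sum_add_distrib, hsumx, hsumxb,
        Finset.sum_sub_distrib, ← Finset.mul_sum, ← Finset.mul_sum, hsumx]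
      ring
    have hpt : ∀ i, w.hel n i ≤ ∑ g ∈ w.B (n + 1),
        (-Real.negMulLog (w.mu n ((w.s i)⁻¹ * g)) -
          w.mu n ((w.s i)⁻¹ * g) * Real.log (w.mu (n + 1) g)) := by
      intro i
      rw [hhel]
      exact Finset.sum_le_sum fun g _ => log_ineq (hmu0 _ _) (hmu0 _ _) (fun h => hxb g h i)
    have hlog : ∑ i, w.p i * ∑ g ∈ w.B (n + 1),
        w.mu n ((w.s i)⁻¹ * g) * Real.log (w.mu (n + 1) g) = -w.ent (n + 1) := by
      have e1 : ∀ i, w.p i * ∑ g ∈ w.B (n + 1),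
          w.mu n ((w.s i)⁻¹ * g) * Real.log (w.mu (n + 1) g) =
          ∑ g ∈ w.B (n + 1), (w.p i * w.mu n ((w.s i)⁻¹ * g)) * Real.log (w.mu (n + 1) g) := by
        intro i
        rw [Finset.mul_sum]
        exact Finset.sum_congr rfl fun g _ => by ring
      simp only [e1]
      rw [Finset.sum_comm]
      unfold Walk.ent
      rw [← Finset.sum_neg_distrib]
      refine Finset.sum_congr rfl (fun g _ => ?_)
      rw [← Finset.sum_mul, ← w.mu_succ]
      unfold Real.negMulLog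
      ring
    have hH : w.Hel n ≤ ∑ i, w.p i * (∑ g ∈ w.B (n + 1),
        (-Real.negMulLog (w.mu n ((w.s i)⁻¹ * g)) -
          w.mu n ((w.s i)⁻¹ * g) * Real.log (w.mu (n + 1) g))) :=
      Finset.sum_le_sum fun i _ => mul_le_mul_of_nonneg_left (hpt i) (w.p_nonneg i)
    have e2 : ∑ i, w.p i * (∑ g ∈ w.B (n + 1),
        (-Real.negMulLog (w.mu n ((w.s i)⁻¹ * g)) -
          w.mu n ((w.s i)⁻¹ * g) * Real.log (w.mu (n + 1) g))) = w.ent (n + 1) - w.ent n := by
      simp only [Finset.sum_sub_distrib, mul_sub]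
      rw [hlog]
      simp only [Finset.sum_neg_distrib, hent]
      rw [← Finset.sum_mul, w.p_sum]
      ring
    rw [e2] at hH
    linarith
  · unfold Walk.ent
    exact Finset.sum_nonneg fun g _ => Real.negMulLog_nonneg (hmu0 _ _) (w.mu_le_one _ _)
  · have hne : 0 < (w.B n).card := by
      apply Finset.card_pos.2
      exact ⟨1, w.mem_B.2 (one_mem_ball n)⟩
    have hc : (0 : ℝ) < (w.B n).card := by exact_mod_cast hne
    have h1 : w.ent n ≤ ∑ g ∈ w.B n, (1 / ((w.B n).card : ℝ) - w.mu n g +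
        w.mu n g * Real.log ((w.B n).card)) :=
      Finset.sum_le_sum fun g _ => log_card_ineq (hmu0 _ _) hc
    rw [Finset.sum_add_distrib, Finset.sum_sub_distrib, ← Finset.sum_mul,
      w.sum_mu (Finset.Subset.refl _), Finset.sum_const, nsmul_eq_mul] at h1
    rw [← w.card_B]
    have h2 : ((w.B n).card : ℝ) * (1 / ((w.B n).card : ℝ)) = 1 := by field_simp
    rw [h2] at h1
    linarith

end Pool.Agent.Helper11.ST
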